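import Mathlib

set_option autoImplicit false

namespace Pool.Agent.Lib.MP_d2274e_an

open Set Filter Topology

/-- The class M of moduli. -/
def Modulus (ω : ℝ → ℝ) : Prop :=
  (∀ t, 0 ≤ t → 0 ≤ ω t) ∧ MonotoneOn ω (Ici 0) ∧ Tendsto ω (𝓝[>] 0) (𝓝 0)

/-- Semiconvexity with modulus ω on G. -/
def Semiconvex {n : ℕ} (ω : ℝ → ℝ) (G : Set (EuclideanSpace ℝ (Fin n)))
    (f : EuclideanSpace ℝ (Fin n) → ℝ) : Prop :=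
  ContinuousOn f G ∧ ∀ x ∈ G, ∀ y ∈ G, ∀ l : ℝ, 0 ≤ l → l ≤ 1 →
    f (l • x + (1 - l) • y) ≤ l * f x + (1 - l) * f y + l * (1 - l) * ‖x - y‖ * ω ‖x - y‖

/-- The class C^{1,ω}(G). -/
def Smooth {n : ℕ} (ω : ℝ → ℝ) (G : Set (EuclideanSpace ℝ (Fin n)))
    (f : EuclideanSpace ℝ (Fin n) → ℝ) : Prop :=
  DifferentiableOn ℝ f G ∧ ∃ K : ℝ, 0 < K ∧ ∀ x ∈ G, ∀ y ∈ G,
    ‖fderiv ℝ f x - fderiv ℝ f y‖ ≤ K * ω ‖x - y‖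

/-- Unbounded, open, convex and cone-free. -/
def Domain {n : ℕ} (G : Set (EuclideanSpace ℝ (Fin n))) : Prop :=
  ¬ Bornology.IsBounded G ∧ IsOpen G ∧ Convex ℝ G ∧
    ¬ ∃ (a : EuclideanSpace ℝ (Fin n)) (C : Set (EuclideanSpace ℝ (Fin n))),
      Convex ℝ C ∧ (∀ x ∈ C, ∀ l : ℝ, 0 < l → l • x ∈ C) ∧ (interior C).Nonempty ∧
        ∀ x ∈ C, a + x ∈ G

/-- Some f is ω-semiconvex and ω-semiconcave on G but not in C^{1,ω}(G). -/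
def HasExample {n : ℕ} (ω : ℝ → ℝ) (G : Set (EuclideanSpace ℝ (Fin n))) : Prop :=
  ∃ f, Semiconvex ω G f ∧ Semiconvex ω G (-f) ∧ ¬ Smooth ω G f

end Pool.Agent.Lib.MP_d2274e_an
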