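import Pool.Agent.Lib.MP_d2274e_an.Neg

set_option autoImplicit false

namespace Pool.Agent.Lib.MP_d2274e_an

open Set Filter Topology Metric

variable {n : ℕ} {ω : ℝ → ℝ} {f : E n → ℝ} {c : ℕ → ℝ} {v : E n}

section

variable (hm : Modulus ω) (hω : ConcaveOn ℝ (Ici 0) ω) (h : TwoSided ω (Horn c v) f)
  (hv : ‖v‖ = 1) (hc : ∀ k, 1 ≤ c k) {M : ℝ} (hM : 1 ≤ M) (hk : ∀ k : ℕ, (k : ℝ) ≤ c k)
  (hr : ∀ k : ℕ, ∀ s, c k ≤ s → (k + 1) * ω (s / (k + 1)) ≤ M * ω s)
include hm hω h hv hc hM hk hr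

omit hM in
lemma axis1 {s d : ℝ} (hs : c 0 ≤ s) (h0 : 0 ≤ d) :
    ‖fderiv ℝ f (s • v) - fderiv ℝ f ((s + d) • v)‖ ≤ 84 * ω d + 168 * (M * (d / s * ω s)) := by
  classical
  have hs0 : 0 < s := by linarith [hc 0]
  obtain ⟨N, hN⟩ := exists_nat_gt s
  set k := Nat.findGreatest (fun k => c k ≤ s) N with hkk
  have h1 : c k ≤ s := Nat.findGreatest_spec (P := fun k => c k ≤ s) (Nat.zero_le N) hs
  have h2 : ∀ m, k < m → s ≤ c m := by
    intro m hlt
    rcases le_or_gt m N with hle | hgt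
    · exact (not_le.1 (Nat.findGreatest_is_greatest (P := fun k => c k ≤ s) hlt hle)).le
    · have : (N:ℝ) < m := by exact_mod_cast hgt
      linarith [hk m]
  have hok : Ok c s (s / (k + 1)) := by
    refine ⟨hs0.le, fun m => ?_⟩
    rcases le_or_gt m k with hle | hgt
    · have : s / (k + 1) ≤ s / (m + 1) := by
        have : (m:ℝ) ≤ k := by exact_mod_cast hle
        gcongr
      linarith [hc m]
    · have a : s / (k + 1) ≤ s := div_le_self hs0.le (by
        have : (0:ℝ) ≤ k := by positivity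
        linarith)
      have b : 0 ≤ s / (m + 1) := by positivity
      linarith [h2 m hgt]
  have := chain hm hω h hv hc hok (by positivity) h0
  have e : d / (s / (k + 1)) * ω (s / (k + 1)) = d / s * ((k + 1) * ω (s / (k + 1))) := by
    field_simp
  rw [e] at this
  have h3 := mul_le_mul_of_nonneg_left (hr k s h1) (show 0 ≤ d / s by positivity)
  nlinarith

omit hM hk hr in
lemma axis0 {s d T : ℝ} (hs : 0 ≤ s) (h0 : 0 ≤ d) (hT : d ≤ T) :
    ‖fderiv ℝ f (s • v) - fderiv ℝ f ((s + d) • v)‖ ≤ (252 + 168 * T) * ω d := by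
  have := chain hm hω h hv hc (ok_one hc hs) one_pos h0
  have hd := hm.nonneg h0
  have h1 := hm.nonneg zero_le_one
  rw [div_one] at this
  rcases le_total d 1 with hle | hle
  · have := scale_le hm hω zero_le_one h0 hle
    rw [mul_one] at this
    nlinarith [mul_nonneg (h0.trans hT) hd]
  · have := hm.mono zero_le_one hle
    nlinarith [mul_le_mul hT this h1 (h0.trans hT)]

lemma axis2 : ∃ C, 0 ≤ C ∧ ∀ T, 0 ≤ T →
    ‖fderiv ℝ f ((0:ℝ) • v) - fderiv ℝ f (T • v)‖ ≤ C * ω T := by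
  obtain ⟨K, hK⟩ := exists_nat_ge (2 * M)
  set l : ℝ := K + 1 with hl
  have hl2 : 2 ≤ l := by linarith
  set T₁ := l * c 0 + c K with hT₁
  have hT0 : 0 < T₁ := by have := hc 0; have := hc K; nlinarith
  set C := 252 + 168 * T₁ + 2 * (84 + 168 * M * l) with hC
  have hC0 : 0 ≤ 2 * (84 + 168 * M * l) := by positivity
  have base : ∀ T, 0 ≤ T → T ≤ T₁ →
      ‖fderiv ℝ f ((0:ℝ) • v) - fderiv ℝ f (T • v)‖ ≤ C * ω T := by
    intro T h0 h1
    have := axis0 hm hω h hv hc le_rfl h0 h1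
    rw [zero_add] at this
    nlinarith [mul_nonneg hC0 (hm.nonneg h0)]
  have key : ∀ m : ℕ, ∀ T, 0 ≤ T → T ≤ T₁ * 2 ^ m →
      ‖fderiv ℝ f ((0:ℝ) • v) - fderiv ℝ f (T • v)‖ ≤ C * ω T := by
    intro m
    induction m with
    | zero => intro T h0 h1; exact base T h0 (by simpa using h1)
    | succ m ih =>
      intro T h0 h1
      rcases le_total T T₁ with hle | hle
      · exact base T h0 hle
      have hl0 : 0 < l := by linarith
      set s := T / l with hs
      have hsT : s * l = T := div_mul_cancel₀ _ hl0.ne'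
      have hs1 : c 0 ≤ s := by rw [le_div_iff₀ hl0]; linarith [hc K]
      have hs0 : 0 < s := by linarith [hc 0]
      have hs2 : 2 * s ≤ T := by nlinarith
      have a1 := ih s hs0.le (by rw [pow_succ] at h1; linarith)
      have a2 := axis1 hm hω h hv hc hk hr hs1 (d := T - s) (by linarith)
      rw [add_sub_cancel] at a2
      have a3 := hr K T (by have := hc 0; nlinarith)
      rw [← hl, ← hs] at a3
      have w0 := hm.nonneg hs0.le
      have w1 := hm.nonneg h0
      have a4 : 2 * ω s ≤ ω T := by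
        have : M * (2 * ω s) ≤ M * ω T := by nlinarith
        exact le_of_mul_le_mul_left this (by linarith)
      have a5 := hm.mono (show 0 ≤ T - s by linarith) (show T - s ≤ T by linarith)
      have a6 : (T - s) / s * ω s ≤ l * ω T := by
        apply mul_le_mul _ (by linarith) w0 hl0.le
        rw [div_le_iff₀ hs0]; linarith
      have a7 : M * ((T - s) / s * ω s) ≤ M * (l * ω T) := by gcongr
      have a8 : C * (2 * ω s) ≤ C * ω T := by
        apply mul_le_mul_of_nonneg_left a4; positivity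
      calc _ ≤ _ := norm_sub_le_norm_sub_add_norm_sub _ (fderiv ℝ f (s • v)) _
        _ ≤ C * ω T := by nlinarith [mul_nonneg hT0.le w1]
  refine ⟨C, by positivity, fun T h0 => ?_⟩
  obtain ⟨m, hm'⟩ := pow_unbounded_of_one_lt (T / T₁) (show (1:ℝ) < 2 by norm_num)
  refine key m T h0 ?_
  rw [div_lt_iff₀ hT0] at hm'
  linarith

lemma axis3 : ∃ C, 0 ≤ C ∧ ∀ s d, 0 ≤ s → 0 ≤ d →
    ‖fderiv ℝ f (s • v) - fderiv ℝ f ((s + d) • v)‖ ≤ C * ω d := by
  obtain ⟨C, hC0, hC⟩ := axis2 hm hω h hv hc hM hk hr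
  have c0 := hc 0
  refine ⟨3 * C + (84 + 168 * M) + (252 + 168 * c 0), by positivity, fun s d hs hd => ?_⟩
  have w := hm.nonneg hd
  have p1 : 0 ≤ 3 * C * ω d := by positivity
  have p2 : 0 ≤ (84 + 168 * M) * ω d := by positivity
  have p3 : 0 ≤ (252 + 168 * c 0) * ω d := by positivity
  rcases le_total s d with hle | hle
  · have a1 := hC s hs
    have a2 := hC (s + d) (by linarith)
    have a3 := hm.mono hs hle
    have a4 := (hm.mono (show 0 ≤ s + d by linarith) (show s + d ≤ 2 * d by linarith)).trans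
      (le_scale hm hω hd (by norm_num))
    rw [norm_sub_rev] at a1
    calc _ ≤ _ := norm_sub_le_norm_sub_add_norm_sub _ (fderiv ℝ f ((0:ℝ) • v)) _
      _ ≤ _ := by nlinarith [mul_le_mul_of_nonneg_left a3 hC0, mul_le_mul_of_nonneg_left a4 hC0]
  rcases le_total (c 0) s with hs' | hs'
  · have a1 := axis1 hm hω h hv hc hk hr hs' hd
    have hs0 : 0 < s := by linarith
    have a2 := scale_le hm hω hs (c := d / s) (by positivity) ((div_le_one hs0).2 hle)
    rw [div_mul_cancel₀ _ hs0.ne'] at a2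
    nlinarith [mul_le_mul_of_nonneg_left a2 (show 0 ≤ M by linarith)]
  · have := axis0 hm hω h hv hc hs hd (hle.trans hs')
    linarith

lemma horn_smooth : Smooth ω (Horn c v) f := by
  obtain ⟨C, hC0, hC⟩ := axis3 hm hω h hv hc hM hk hr
  refine ⟨fun x hx => (h.taylor' hm horn_open hx).1.differentiableWithinAt, 84 + 3 * C,
    by positivity, ?_⟩
  have hC' : ∀ s s', 0 ≤ s → 0 ≤ s' →
      ‖fderiv ℝ f (s • v) - fderiv ℝ f (s' • v)‖ ≤ C * ω |s - s'| := by
    intro s s' h1 h2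
    rcases le_total s s' with hle | hle
    · have := hC s (s' - s) h1 (by linarith)
      rwa [add_sub_cancel, ← abs_of_nonneg (sub_nonneg.2 hle), abs_sub_comm] at this
    · have := hC s' (s - s') h2 (by linarith)
      rwa [add_sub_cancel, ← abs_of_nonneg (sub_nonneg.2 hle), norm_sub_rev] at this
  rintro a ⟨s, ρ, hok, ha⟩ b ⟨s', ρ', hok', hb⟩
  have w := hm.nonneg (norm_nonneg (a - b))
  have p : 0 ≤ 3 * C * ω ‖a - b‖ := by positivity
  rcases le_total ‖a - b‖ ρ with h1 | h1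
  · have := local2 hm hω horn_open horn_convex h (ball_subset hok) (mem_ball_iff_norm.2 ha)
      ⟨s', ρ', hok', hb⟩ h1
    linarith
  rcases le_total ‖a - b‖ ρ' with h2 | h2
  · have := local2 hm hω horn_open horn_convex h (ball_subset hok') (mem_ball_iff_norm.2 hb)
      ⟨s, ρ, hok, ha⟩ (by rwa [norm_sub_rev])
    rw [norm_sub_rev, norm_sub_rev b a] at this
    linarith
  have hρ : 0 < ρ := (norm_nonneg _).trans_lt ha
  have hρ' : 0 < ρ' := (norm_nonneg _).trans_lt hb
  have l1 := local1 hm hω horn_open h (half_pos hρ)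
    ((closedBall_subset_ball (half_lt_self hρ)).trans (ball_subset hok)) ⟨s, ρ, hok, ha⟩
    (by linarith)
  have l2 := local1 hm hω horn_open h (half_pos hρ')
    ((closedBall_subset_ball (half_lt_self hρ')).trans (ball_subset hok')) ⟨s', ρ', hok', hb⟩
    (by linarith)
  have m1 := hm.mono (half_pos hρ).le (show ρ / 2 ≤ ‖a - b‖ by linarith)
  have m2 := hm.mono (half_pos hρ').le (show ρ' / 2 ≤ ‖a - b‖ by linarith)
  have l3 := hC' s s' hok.1 hok'.1
  have d3 : |s - s'| ≤ 3 * ‖a - b‖ := by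
    have e : (s - s') • v = (a - b) - (a - s • v) + (b - s' • v) := by module
    have : ‖(s - s') • v‖ ≤ ‖a - b‖ + ‖a - s • v‖ + ‖b - s' • v‖ := by
      rw [e]; exact (norm_add_le _ _).trans (by gcongr; exact norm_sub_le _ _)
    rw [norm_smul, hv, Real.norm_eq_abs] at this
    linarith
  have m3 := (hm.mono (abs_nonneg _) d3).trans (le_scale hm hω (norm_nonneg _) (by norm_num))
  have t1 := norm_sub_le_norm_sub_add_norm_sub (fderiv ℝ f a) (fderiv ℝ f (s • v)) (fderiv ℝ f b)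
  have t2 := norm_sub_le_norm_sub_add_norm_sub (fderiv ℝ f (s • v)) (fderiv ℝ f (s' • v))
    (fderiv ℝ f b)
  rw [norm_sub_rev] at l2
  nlinarith [mul_le_mul_of_nonneg_left m3 hC0]

end

theorem negative (hn : 2 ≤ n) (hm : Modulus ω) (hω : ConcaveOn ℝ (Ici 0) ω)
    (hL : ¬ ∀ M : ℝ, ∃ l : ℝ, 1 ≤ l ∧ ∃ᶠ R in atTop, M * ω (l * R) < l * ω R) :
    ∃ G : Set (E n), Domain G ∧ ¬ HasExample ω G := by
  push Not at hL
  obtain ⟨M, hM⟩ := hL
  have h1 : ∀ k : ℕ, ∃ r : ℝ, ∀ R ≥ r, (k + 1) * ω R ≤ M * ω ((k + 1) * R) := by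
    intro k
    have := hM (k + 1) (by have : (0:ℝ) ≤ k := by positivity
                           linarith)
    exact eventually_atTop.1 this
  choose r hr using h1
  set c : ℕ → ℝ := fun k => (k + 1) * (|r k| + 1) with hcc
  have hk1 : ∀ k : ℕ, (k:ℝ) + 1 ≤ c k := fun k => by
    have : (0:ℝ) ≤ (k + 1) * |r k| := by positivity
    simp only [hcc]; linarith
  have hc : ∀ k, 1 ≤ c k := fun k => by
    have : (0:ℝ) ≤ k := by positivity
    linarith [hk1 k]
  refine ⟨_, horn_domain hn hc, ?_⟩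
  rintro ⟨f, h1, h2, h3⟩
  refine h3 (horn_smooth hm hω (twoSided_of h1 h2) (by simp) hc (le_max_right M 1)
    (fun k => by linarith [hk1 k]) fun k s hs => ?_)
  have hk0 : (0:ℝ) < k + 1 := by positivity
  have := hr k (s / (k + 1)) (by
    rw [ge_iff_le, le_div_iff₀ hk0]
    simp only [hcc] at hs
    nlinarith [le_abs_self (r k)])
  rw [mul_div_cancel₀ _ hk0.ne'] at this
  refine this.trans (mul_le_mul_of_nonneg_right (le_max_left _ _) (hm.nonneg ?_))
  linarith [hc k]

end Pool.Agent.Lib.MP_d2274e_an
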