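import Pool.Agent.Lib.MP_d2274e_an.Pos2
import Pool.Agent.Lib.MP_d2274e_an.Neg2

set_option autoImplicit false

namespace Pool.Agent.Lib.MP_d2274e_an

open Set Filter Topology Metric Real

noncomputable def w₁ (t : ℝ) : ℝ := t / (1 + log (1 + t))

lemma den_pos {t : ℝ} (ht : 0 ≤ t) : 0 < 1 + log (1 + t) := by
  have := log_nonneg (show 1 ≤ 1 + t by linarith); linarith

lemma w₁_cont : ContinuousOn w₁ (Ici 0) := by
  refine continuousOn_id.div (continuousOn_const.add
    ((continuousOn_const.add continuousOn_id).log fun t ht => ?_)) fun t ht => (den_pos ht).ne'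
  have : (0:ℝ) ≤ t := ht
  simp only [Pi.add_apply, id]; linarith

lemma w₁_modulus : Modulus w₁ := by
  refine ⟨fun t ht => div_nonneg ht (den_pos ht).le, fun s hs t ht hst => ?_, ?_⟩
  · have hs' : (0:ℝ) ≤ s := hs
    unfold w₁
    rw [div_le_div_iff₀ (den_pos hs) (den_pos ht)]
    have h1 := log_le_sub_one_of_pos (show 0 < (1 + t) / (1 + s) from div_pos (by linarith) (by linarith))
    rw [log_div (by linarith) (by linarith)] at h1
    have h2 : s * ((1 + t) / (1 + s) - 1) ≤ t - s := by
      rw [div_sub_one (by linarith), mul_div_assoc', div_le_iff₀ (by linarith)]; nlinarith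
    have h3 := log_nonneg (show 1 ≤ 1 + s by linarith)
    nlinarith [mul_le_mul_of_nonneg_left h1 hs', mul_nonneg (sub_nonneg.2 hst) h3]
  · have := (w₁_cont 0 self_mem_Ici).tendsto
    simp only [w₁, zero_div] at this
    exact this.mono_left (nhdsWithin_mono _ Ioi_subset_Ici_self)

lemma w₁_concave : ConcaveOn ℝ (Ici 0) w₁ := by
  have hL : ∀ t : ℝ, 0 < t → HasDerivAt (fun t : ℝ => 1 + log (1 + t)) (1 / (1 + t)) t :=
    fun t ht => (((hasDerivAt_id t).const_add 1).log (by simp only [id]; linarith)).const_add 1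
  apply concaveOn_of_hasDerivWithinAt2_nonpos (convex_Ici 0) w₁_cont
    (f' := fun t => ((1 + log (1 + t)) - t / (1 + t)) / (1 + log (1 + t)) ^ 2)
    (f'' := fun t => (2 * t - (2 + t) * (1 + log (1 + t))) / ((1 + t) ^ 2 * (1 + log (1 + t)) ^ 3))
  · intro t ht
    rw [interior_Ici] at ht
    have ht' : 0 < t := ht
    have := (hasDerivAt_id t).div (hL t ht') (den_pos ht'.le).ne'
    refine (this.congr_deriv ?_).hasDerivWithinAt
    simp only [id]; ring
  · intro t ht
    rw [interior_Ici] at ht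
    have ht' : 0 < t := ht
    have h1 := (hasDerivAt_id t).div ((hasDerivAt_id t).const_add 1) (by simp only [id]; linarith)
    have := ((hL t ht').sub h1).div ((hL t ht').pow 2) (pow_pos (den_pos ht'.le) 2).ne'
    refine (this.congr_deriv ?_).hasDerivWithinAt
    have := (den_pos ht'.le).ne'
    have : (1 + t) ≠ 0 := by linarith
    simp only [id, Pi.sub_apply, Pi.div_apply, Pi.pow_apply]
    field_simp; ring
  · intro t ht
    rw [interior_Ici] at ht
    have ht' : 0 < t := ht
    apply div_nonpos_of_nonpos_of_nonneg _ (by have := den_pos ht'.le; positivity)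
    have h1 := one_sub_inv_le_log_of_pos (show 0 < 1 + t by linarith)
    have h2 : (2 + t) * (1 + t)⁻¹ ≤ 2 := by
      rw [mul_inv_le_iff₀ (by linarith)]; linarith
    nlinarith

lemma w₁_zero : Tendsto (fun t => w₁ t / t) (𝓝[>] 0) (𝓝 1) := by
  have h : ContinuousAt (fun t : ℝ => (1 + log (1 + t))⁻¹) 0 := by
    apply ContinuousAt.inv₀ _ (by simp)
    exact continuousAt_const.add ((continuousAt_const.add continuousAt_id).log (by simp))
  have := h.tendsto
  simp only [add_zero, log_one, inv_one] at this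
  refine (this.mono_left nhdsWithin_le_nhds).congr' ?_
  filter_upwards [self_mem_nhdsWithin] with t ht
  have : t ≠ 0 := ne_of_gt ht
  unfold w₁; field_simp

lemma w₁_top : Tendsto (fun t => w₁ t / t) atTop (𝓝 0) := by
  have h : Tendsto (fun t : ℝ => 1 + log (1 + t)) atTop atTop :=
    tendsto_atTop_add_const_left _ _ (tendsto_log_atTop.comp
      (tendsto_atTop_add_const_left _ _ tendsto_id))
  refine h.inv_tendsto_atTop.congr' ?_
  filter_upwards [eventually_gt_atTop 0] with t ht
  unfold w₁; simp only [Pi.inv_apply]; field_simp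

lemma w₁_not : ¬ ∀ M : ℝ, ∃ l : ℝ, 1 ≤ l ∧ ∃ᶠ R in atTop, M * w₁ (l * R) < l * w₁ R := by
  intro h
  obtain ⟨l, hl, hf⟩ := h 2
  obtain ⟨R, h1, h2⟩ := (hf.and_eventually (eventually_ge_atTop l)).exists
  have hR : 0 < R := by linarith
  have hlR : 0 < l * R := by positivity
  unfold w₁ at h1
  rw [mul_div_assoc', mul_div_assoc', div_lt_div_iff₀ (den_pos hlR.le) (den_pos hR.le)] at h1
  have h3 : log (1 + l * R) ≤ 2 * log (1 + R) := by
    have : log ((1 + R) ^ 2) = 2 * log (1 + R) := by rw [log_pow]; norm_num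
    rw [← this]
    apply log_le_log (by linarith); nlinarith
  nlinarith

lemma rpow_modulus {α : ℝ} (h0 : 0 < α) : Modulus fun t => t ^ α := by
  refine ⟨fun t ht => rpow_nonneg ht α, fun s hs t _ hst => rpow_le_rpow hs hst h0.le, ?_⟩
  have := (continuousAt_rpow_const 0 α (Or.inr h0.le)).tendsto
  rw [zero_rpow h0.ne'] at this
  exact this.mono_left nhdsWithin_le_nhds

lemma rpow_cond {α : ℝ} (h1 : α < 1) (M : ℝ) :
    ∃ l : ℝ, 1 ≤ l ∧ ∃ᶠ R in atTop, M * (l * R) ^ α < l * R ^ α := by
  have h := (tendsto_rpow_atTop (show 0 < 1 - α by linarith)).eventually (eventually_gt_atTop M)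
  obtain ⟨l, a, b⟩ := (h.and (eventually_ge_atTop 1)).exists
  refine ⟨l, b, Eventually.frequently ?_⟩
  filter_upwards [eventually_gt_atTop 0] with R hR
  have hl : 0 < l := by linarith
  have e : l = l ^ (1 - α) * l ^ α := by rw [← rpow_add hl]; simp
  rw [mul_rpow hl.le hR.le]
  nth_rewrite 2 [e]
  rw [mul_assoc]
  exact mul_lt_mul_of_pos_right a (by positivity)

end Pool.Agent.Lib.MP_d2274e_an
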