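import Pool.Agent.Lib.MP_d2274e_an.Taylor

set_option autoImplicit false

namespace Pool.Agent.Lib.MP_d2274e_an

open Set Filter Topology Metric

variable {n : ℕ} {ω : ℝ → ℝ} {G : Set (E n)} {f : E n → ℝ}

lemma local1 (hm : Modulus ω) (hc : ConcaveOn ℝ (Ici 0) ω) (ho : IsOpen G) (h : TwoSided ω G f)
    {p a : E n} {ρ : ℝ} (hρ : 0 < ρ) (hp : closedBall p ρ ⊆ G) (ha : a ∈ G)
    (hd : ‖a - p‖ ≤ 4 * ρ) : ‖fderiv ℝ f a - fderiv ℝ f p‖ ≤ 42 * ω ρ := by
  have hpG : p ∈ G := hp (mem_closedBall_self hρ.le)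
  have hω := hm.nonneg hρ.le
  apply ContinuousLinearMap.opNorm_le_of_unit_norm (by positivity)
  intro u hu
  have hq : p + ρ • u ∈ G := hp (by
    rw [mem_closedBall, dist_eq_norm, add_sub_cancel_left, norm_smul, hu, Real.norm_of_nonneg hρ.le,
      mul_one])
  have t1 := (h.taylor' hm ho hpG).2 _ hq
  have t2 := (h.taylor' hm ho ha).2 _ hq
  have t3 := (h.taylor' hm ho ha).2 _ hpG
  rw [add_sub_cancel_left, norm_smul, hu, Real.norm_of_nonneg hρ.le, mul_one, map_smul] at t1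
  have e : p + ρ • u - a = (p - a) + ρ • u := by abel
  have n1 : ‖p - a‖ ≤ 4 * ρ := by rwa [norm_sub_rev]
  have n2 : ‖p + ρ • u - a‖ ≤ 5 * ρ := by
    rw [e]
    refine (norm_add_le _ _).trans ?_
    rw [norm_smul, hu, Real.norm_of_nonneg hρ.le]; linarith
  have b2 : ‖p + ρ • u - a‖ * ω ‖p + ρ • u - a‖ ≤ 5 * ρ * (5 * ω ρ) :=
    mul_le_mul n2 ((hm.mono (norm_nonneg _) n2).trans (le_scale hm hc hρ.le (by norm_num)))
      (hm.nonneg (norm_nonneg _)) (by positivity)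
  have b3 : ‖p - a‖ * ω ‖p - a‖ ≤ 4 * ρ * (4 * ω ρ) :=
    mul_le_mul n1 ((hm.mono (norm_nonneg _) n1).trans (le_scale hm hc hρ.le (by norm_num)))
      (hm.nonneg (norm_nonneg _)) (by positivity)
  have t2' := t2.trans b2
  have t3' := t3.trans b3
  rw [e, map_add, map_smul] at t2'
  simp only [smul_eq_mul] at t1 t2'
  rw [sub_apply, Real.norm_eq_abs]
  have key : ρ * |fderiv ℝ f a u - fderiv ℝ f p u| ≤ ρ * (42 * ω ρ) := by
    rw [← abs_of_pos hρ, ← abs_mul, abs_of_pos hρ]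
    rw [abs_le] at *
    constructor <;> nlinarith [t1.1, t1.2, t2'.1, t2'.2, t3'.1, t3'.2]
  exact le_of_mul_le_mul_left key hρ

lemma local2 (hm : Modulus ω) (hc : ConcaveOn ℝ (Ici 0) ω) (ho : IsOpen G) (hv : Convex ℝ G)
    (h : TwoSided ω G f) {q a b : E n} {ρ : ℝ} (hq : ball q ρ ⊆ G) (ha : a ∈ ball q ρ) (hb : b ∈ G)
    (hd : ‖a - b‖ ≤ ρ) : ‖fderiv ℝ f a - fderiv ℝ f b‖ ≤ 84 * ω ‖a - b‖ := by
  rcases eq_or_ne a b with rfl | hab
  · simp [hm.zero]
  set d := ‖a - b‖ with hdd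
  have hd0 : 0 < d := norm_pos_iff.2 (sub_ne_zero.2 hab)
  have hρ : 0 < ρ := hd0.trans_le hd
  set θ := d / ρ with hθ
  have hθ0 : 0 < θ := div_pos hd0 hρ
  have hθ1 : θ ≤ 1 := (div_le_one hρ).2 hd
  have hθρ : θ * ρ = d := div_mul_cancel₀ _ hρ.ne'
  set p := a + θ • (q - a) with hp
  have hball : closedBall p (d / 2) ⊆ G := by
    intro y hy
    rw [mem_closedBall, dist_eq_norm] at hy
    have h1 : q + θ⁻¹ • (y - p) ∈ G := hq (by
      rw [mem_ball, dist_eq_norm, add_sub_cancel_left, norm_smul, Real.norm_of_nonneg (by positivity),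
        inv_mul_lt_iff₀ hθ0]
      linarith)
    have h2 := hv (hq ha) h1 (sub_nonneg.2 hθ1) hθ0.le (by ring)
    have e : (1 - θ) • a + θ • (q + θ⁻¹ • (y - p)) = y := by
      rw [smul_add, smul_smul, mul_inv_cancel₀ hθ0.ne', one_smul, hp]; module
    rwa [e] at h2
  have n1 : ‖a - p‖ ≤ d := by
    have : a - p = θ • (a - q) := by rw [hp]; module
    rw [this, norm_smul, Real.norm_of_nonneg hθ0.le, ← hθρ]
    have := mem_ball_iff_norm.1 ha
    gcongr
  have n2 : ‖b - p‖ ≤ 4 * (d / 2) := by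
    have : b - p = (a - p) - (a - b) := by abel
    rw [this]
    refine (norm_sub_le _ _).trans ?_
    linarith
  have l1 := local1 hm hc ho h (half_pos hd0) hball (hq ha) (by linarith)
  have l2 := local1 hm hc ho h (half_pos hd0) hball hb n2
  have m := hm.mono (half_pos hd0).le (show d / 2 ≤ d by linarith)
  calc ‖fderiv ℝ f a - fderiv ℝ f b‖
      = ‖(fderiv ℝ f a - fderiv ℝ f p) - (fderiv ℝ f b - fderiv ℝ f p)‖ := by congr 1; abel
    _ ≤ _ := norm_sub_le _ _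
    _ ≤ 84 * ω d := by linarith

/-- admissible radii -/
def Ok (c : ℕ → ℝ) (s ρ : ℝ) : Prop := 0 ≤ s ∧ ∀ k : ℕ, ρ ≤ s / (k + 1) + c k

def Horn (c : ℕ → ℝ) (v : E n) : Set (E n) := {x | ∃ s ρ, Ok c s ρ ∧ ‖x - s • v‖ < ρ}

variable {c : ℕ → ℝ} {v : E n}

lemma Ok.mono {s s' ρ : ℝ} (h : Ok c s ρ) (hs : s ≤ s') : Ok c s' ρ :=
  ⟨h.1.trans hs, fun k => (h.2 k).trans (by gcongr)⟩

lemma ok_one (hc : ∀ k, 1 ≤ c k) {s : ℝ} (hs : 0 ≤ s) : Ok c s 1 :=
  ⟨hs, fun k => by have := hc k; have : 0 ≤ s / (k + 1) := by positivity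
                   linarith⟩

lemma ball_subset {s ρ : ℝ} (h : Ok c s ρ) : ball (s • v) ρ ⊆ Horn c v :=
  fun _ hx => ⟨s, ρ, h, mem_ball_iff_norm.1 hx⟩

lemma horn_open : IsOpen (Horn c v) := by
  rw [isOpen_iff_mem_nhds]
  rintro x ⟨s, ρ, h, hx⟩
  exact mem_of_superset (isOpen_ball.mem_nhds (mem_ball_iff_norm.2 hx)) (ball_subset h)

lemma horn_convex : Convex ℝ (Horn c v) := by
  rintro x ⟨s, ρ, h, hx⟩ y ⟨s', ρ', h', hy⟩ a b ha hb hab
  refine ⟨a * s + b * s', a * ρ + b * ρ', ⟨add_nonneg (mul_nonneg ha h.1) (mul_nonneg hb h'.1),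
    fun k => ?_⟩, ?_⟩
  · have h1 := mul_le_mul_of_nonneg_left (h.2 k) ha
    have h2 := mul_le_mul_of_nonneg_left (h'.2 k) hb
    have : (a * s + b * s') / (k + 1) + c k
        = a * (s / (k + 1) + c k) + b * (s' / (k + 1) + c k) := by
      have : c k = (a + b) * c k := by rw [hab, one_mul]
      nth_rewrite 1 [this]; ring
    linarith
  · have e : a • x + b • y - (a * s + b * s') • v = a • (x - s • v) + b • (y - s' • v) := by module
    rw [e]
    refine (norm_add_le _ _).trans_lt ?_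
    rw [norm_smul, norm_smul, Real.norm_of_nonneg ha, Real.norm_of_nonneg hb]
    rcases eq_or_lt_of_le ha with rfl | ha'
    · have : b = 1 := by linarith
      subst this; simpa using hy
    · nlinarith [mul_lt_mul_of_pos_left hx ha', mul_le_mul_of_nonneg_left hy.le hb]

lemma axis_mem (hc : ∀ k, 1 ≤ c k) {s : ℝ} (hs : 0 ≤ s) : s • v ∈ Horn c v :=
  ball_subset (ok_one hc hs) (mem_ball_self one_pos)

lemma horn_domain (hn : 2 ≤ n) (hc : ∀ k, 1 ≤ c k) :
    Domain (Horn c (EuclideanSpace.single (⟨0, by omega⟩ : Fin n) (1:ℝ))) := by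
  set v : E n := EuclideanSpace.single (⟨0, by omega⟩ : Fin n) (1:ℝ) with hv
  have hv1 : ‖v‖ = 1 := by simp [hv]
  refine ⟨?_, horn_open, horn_convex, ?_⟩
  · intro hb
    obtain ⟨R, hR⟩ := hb.exists_norm_le
    have := hR _ (axis_mem (v := v) hc (s := |R| + 1) (by positivity))
    rw [norm_smul, hv1, Real.norm_of_nonneg (by positivity)] at this
    linarith [le_abs_self R]
  · rintro ⟨a, C, -, hC, ⟨z, hz⟩, hG⟩
    set i : Fin n := ⟨1, by omega⟩ with hi
    have hvi : v i = 0 := by simp [hv, hi]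
    obtain ⟨ε, hε, hb⟩ := Metric.mem_nhds_iff.1 (mem_interior_iff_mem_nhds.1 hz)
    obtain ⟨w, hw, hwi⟩ : ∃ w ∈ C, w i ≠ 0 := by
      by_cases h0 : z i = 0
      · refine ⟨z + EuclideanSpace.single i (ε / 2), hb ?_, ?_⟩
        · rw [mem_ball_iff_norm, add_sub_cancel_left]
          simp [abs_of_pos hε]; linarith
        · simp [h0, hε.ne']
      · exact ⟨z, interior_subset hz, h0⟩
    have hwi' : 0 < |w i| := abs_pos.2 hwi
    obtain ⟨k, hk⟩ := exists_nat_ge (4 * ‖w‖ / |w i|)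
    have hk' : 2 * ‖w‖ / (k + 1) ≤ |w i| / 2 := by
      rw [div_le_iff₀ hwi'] at hk
      rw [div_le_iff₀ (by positivity)]
      nlinarith
    set B := ‖a‖ + 2 * (‖a‖ + c 1) + c k with hB
    have hB0 : 0 < B := by have := hc 1; have := hc k; have := norm_nonneg a; linarith
    set l := 2 * B / |w i| with hl
    have hl0 : 0 < l := by positivity
    obtain ⟨s, ρ, hok, hx⟩ := hG _ (hC w hw l hl0)
    have h1 : |a i + l * w i| < ρ := by
      have := EuclideanSpace.norm_eq (a + l • w - s • v)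
      have h2 := PiLp.norm_apply_le (a + l • w - s • v) i
      simp only [PiLp.sub_apply, PiLp.add_apply, PiLp.smul_apply, hvi, smul_eq_mul, mul_zero,
        sub_zero, Real.norm_eq_abs] at h2
      linarith
    have h2 : s ≤ ‖a‖ + l * ‖w‖ + ρ := by
      have e : s • v = (a + l • w) - (a + l • w - s • v) := by abel
      have : ‖s • v‖ ≤ ‖a + l • w‖ + ‖a + l • w - s • v‖ := by
        nth_rewrite 1 [e]; exact norm_sub_le _ _
      rw [norm_smul, hv1, Real.norm_of_nonneg hok.1] at this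
      have h3 := norm_add_le a (l • w)
      rw [norm_smul, Real.norm_of_nonneg hl0.le] at h3
      linarith
    have h3 := hok.2 1
    have h4 := hok.2 k
    norm_num at h3
    have h5 : s ≤ 2 * (‖a‖ + c 1) + 2 * ‖w‖ * l := by linarith
    have h6 : s / (k + 1) ≤ 2 * (‖a‖ + c 1) + l * (|w i| / 2) := by
      have k1 : (1:ℝ) ≤ k + 1 := by have : (0:ℝ) ≤ k := by positivity
                                    linarith
      have a1 : 2 * (‖a‖ + c 1) / (k + 1) ≤ 2 * (‖a‖ + c 1) :=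
        div_le_self (by have := hc 1; have := norm_nonneg a; linarith) k1
      calc s / (k + 1) ≤ (2 * (‖a‖ + c 1) + 2 * ‖w‖ * l) / (k + 1) := by gcongr
        _ = 2 * (‖a‖ + c 1) / (k + 1) + l * (2 * ‖w‖ / (k + 1)) := by ring
        _ ≤ _ := by gcongr
    have h7 : l * |w i| ≤ |a i + l * w i| + ‖a‖ := by
      have : |a i| ≤ ‖a‖ := PiLp.norm_apply_le a i
      have e : l * |w i| = |(a i + l * w i) - a i| := by
        rw [add_sub_cancel_left, abs_mul, abs_of_pos hl0]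
      rw [e]
      linarith [abs_sub (a i + l * w i) (a i)]
    have h8 : l * |w i| = 2 * B := by rw [hl]; field_simp
    linarith

section axis

variable (hm : Modulus ω) (hω : ConcaveOn ℝ (Ici 0) ω) (h : TwoSided ω (Horn c v) f)
  (hv : ‖v‖ = 1) (hc : ∀ k, 1 ≤ c k)
include hm hω h hv hc

lemma step {s ρ d : ℝ} (hok : Ok c s ρ) (hρ : 0 < ρ) (h0 : 0 ≤ d) (hd : d ≤ ρ) :
    ‖fderiv ℝ f (s • v) - fderiv ℝ f ((s + d) • v)‖ ≤ 84 * ω d := by
  have e : ‖s • v - (s + d) • v‖ = d := by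
    have : s • v - (s + d) • v = (-d) • v := by module
    rw [this, norm_smul, hv, norm_neg, Real.norm_of_nonneg h0, mul_one]
  have := local2 hm hω horn_open horn_convex h (ball_subset hok) (mem_ball_self hρ)
    (axis_mem hc (add_nonneg hok.1 h0)) (e.trans_le hd)
  rwa [e] at this

lemma steps {s ρ d : ℝ} (hok : Ok c s ρ) (hρ : 0 < ρ) (h0 : 0 ≤ d) (hd : d ≤ ρ) (N : ℕ) :
    ‖fderiv ℝ f (s • v) - fderiv ℝ f ((s + N * d) • v)‖ ≤ N * (84 * ω ρ) := by
  induction N with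
  | zero => simp
  | succ N ih =>
    have h1 := step hm hω h hv hc (hok.mono (show s ≤ s + N * d by
      have : 0 ≤ (N:ℝ) * d := by positivity
      linarith)) hρ h0 hd
    have h2 := hm.mono h0 hd
    have e : s + ((N + 1 : ℕ) : ℝ) * d = s + N * d + d := by push_cast; ring
    rw [e]
    calc _ ≤ _ := norm_sub_le_norm_sub_add_norm_sub _ (fderiv ℝ f ((s + N * d) • v)) _
      _ ≤ _ := by push_cast; linarith

lemma chain {s ρ d : ℝ} (hok : Ok c s ρ) (hρ : 0 < ρ) (h0 : 0 ≤ d) :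
    ‖fderiv ℝ f (s • v) - fderiv ℝ f ((s + d) • v)‖ ≤ 84 * ω d + 168 * (d / ρ * ω ρ) := by
  have hd := hm.nonneg h0
  have hρ' := hm.nonneg hρ.le
  rcases le_total d ρ with hle | hle
  · have := step hm hω h hv hc hok hρ h0 hle
    have : 0 ≤ d / ρ * ω ρ := by positivity
    linarith
  · set N := ⌈d / ρ⌉₊ with hN
    have h1 : 1 ≤ d / ρ := (one_le_div hρ).2 hle
    have h2 : d / ρ ≤ N := Nat.le_ceil _
    have h3 : (N:ℝ) < d / ρ + 1 := Nat.ceil_lt_add_one (by positivity)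
    have hN0 : (0:ℝ) < N := by linarith
    have := steps hm hω h hv hc hok hρ (d := d / N) (by positivity) (by
      rw [div_le_iff₀ hN0]; rw [div_le_iff₀ hρ] at h2; linarith) N
    rw [mul_div_cancel₀ _ hN0.ne'] at this
    nlinarith

end axis

end Pool.Agent.Lib.MP_d2274e_an
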