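import Pool.Agent.Lib.MP_d2274e_an.Taylor

set_option autoImplicit false

namespace Pool.Agent.Lib.MP_d2274e_an

open Set Filter Topology Metric
open scoped RealInnerProductSpace

variable {n : ℕ} {ω : ℝ → ℝ} {G : Set (E n)}

/-- recession cone -/
def Rec (G : Set (E n)) (x₀ : E n) : Set (E n) := {w | ∀ t : ℝ, 0 ≤ t → x₀ + t • w ∈ G}

lemma exists_dir (ho : IsOpen G) (hv : Convex ℝ G) {x₀ : E n} (h0 : x₀ ∈ G) {S : Set (E n)}
    (hS : IsClosed S) (h : ∀ k : ℕ, ∃ x ∈ G, (k:ℝ) < ‖x - x₀‖ ∧ ‖x - x₀‖⁻¹ • (x - x₀) ∈ S) :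
    ∃ w ∈ S, ‖w‖ = 1 ∧ w ∈ Rec G x₀ := by
  choose x hxG hxk hxS using h
  have hpos : ∀ k, 0 < ‖x k - x₀‖ := fun k => lt_of_le_of_lt (by positivity) (hxk k)
  have hmem : ∀ k, ‖x k - x₀‖⁻¹ • (x k - x₀) ∈ sphere (0 : E n) 1 ∩ S := fun k =>
    ⟨by rw [mem_sphere_zero_iff_norm, norm_smul, norm_inv, norm_norm,
      inv_mul_cancel₀ (hpos k).ne'], hxS k⟩
  obtain ⟨w, ⟨hw1, hwS⟩, φ, hφ, hlim⟩ :=
    ((isCompact_sphere (0 : E n) 1).inter_right hS).tendsto_subseq hmem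
  refine ⟨w, hwS, mem_sphere_zero_iff_norm.1 hw1, fun t ht => ?_⟩
  obtain ⟨ε, hε, hb⟩ := Metric.isOpen_iff.1 ho x₀ h0
  have h1 : Tendsto (fun k => t • (w - ‖x (φ k) - x₀‖⁻¹ • (x (φ k) - x₀))) atTop (𝓝 0) := by
    have := (hlim.const_sub w).const_smul t
    simpa using this
  have h2 := (tendsto_iff_norm_sub_tendsto_zero.1 h1).eventually
    (gt_mem_nhds (show (0:ℝ) < ε / 2 by linarith))
  obtain ⟨N, hN⟩ := exists_nat_ge (2 * t)
  obtain ⟨k, hk1, hk2⟩ := (h2.and (eventually_ge_atTop N)).exists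
  rw [sub_zero] at hk1
  set ρ := ‖x (φ k) - x₀‖ with hρ
  have hρ0 : 0 < ρ := hpos _
  have hρt : 2 * t ≤ ρ := by
    have a : (N:ℝ) ≤ φ k := by exact_mod_cast hk2.trans (hφ.id_le k)
    linarith [hxk (φ k)]
  set θ := t / ρ with hθ
  have hθ0 : 0 ≤ θ := by positivity
  have hθ1 : θ ≤ 1 / 2 := by rw [div_le_iff₀ hρ0]; linarith
  set y := t • (w - ρ⁻¹ • (x (φ k) - x₀)) with hy
  have h3 : x₀ + (1 - θ)⁻¹ • y ∈ G := hb (by
    rw [mem_ball_iff_norm, add_sub_cancel_left, norm_smul, norm_inv,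
      Real.norm_of_nonneg (by linarith), inv_mul_lt_iff₀ (by linarith)]
    nlinarith)
  have h4 := hv (hxG (φ k)) h3 hθ0 (show 0 ≤ 1 - θ by linarith) (by ring)
  have e : θ • x (φ k) + (1 - θ) • (x₀ + (1 - θ)⁻¹ • y) = x₀ + t • w := by
    rw [smul_add, smul_smul, mul_inv_cancel₀ (by linarith), one_smul, hy, hθ, div_eq_mul_inv]
    module
  rwa [e] at h4

lemma geometry (hG : Domain G) : ∃ x₀ v e : E n, ‖v‖ = 1 ∧ ‖e‖ = 1 ∧ ⟪e, v⟫ = 0 ∧
    (∀ t : ℝ, 0 ≤ t → x₀ + t • v ∈ G) ∧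
    ∀ δ : ℝ, 0 < δ → ∃ R₀ : ℝ, ∀ x ∈ G, |⟪e, x - x₀⟫| ≤ δ * ‖x - x₀‖ + R₀ := by
  obtain ⟨hb, ho, hv, hc⟩ := hG
  obtain ⟨x₀, h0⟩ : G.Nonempty := by
    by_contra hne
    rw [not_nonempty_iff_eq_empty] at hne
    exact hb (hne ▸ Bornology.isBounded_empty)
  have hconv : Convex ℝ (Rec G x₀) := by
    intro u hu w hw a b ha hb' hab t ht
    have := hv (hu t ht) (hw t ht) ha hb' hab
    have e : a • (x₀ + t • u) + b • (x₀ + t • w) = (a + b) • x₀ + t • (a • u + b • w) := by module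
    rwa [e, hab, one_smul] at this
  have hint : ¬ (interior (Rec G x₀)).Nonempty := fun hi =>
    hc ⟨x₀, Rec G x₀, hconv, fun x hx l hl t ht => by
      rw [smul_smul]; exact hx _ (by positivity), hi, fun x hx => by simpa using hx 1 zero_le_one⟩
  have hzero : (0 : E n) ∈ Rec G x₀ := fun t _ => by simpa using h0
  have hspan : Submodule.span ℝ (Rec G x₀) ≠ ⊤ := by
    intro htop
    apply hint
    rw [hconv.interior_nonempty_iff_affineSpan_eq_top, ← AffineSubspace.direction_eq_top_iff_of_nonempty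
      ((affineSpan_nonempty ℝ).2 ⟨0, hzero⟩), direction_affineSpan,
      vectorSpan_eq_span_vsub_set_right ℝ hzero]
    simpa using htop
  obtain ⟨e₀, he₀, hne⟩ : ∃ e₀ ∈ (Submodule.span ℝ (Rec G x₀))ᗮ, e₀ ≠ 0 := by
    rw [← Submodule.ne_bot_iff]
    rwa [Ne, Submodule.orthogonal_eq_bot_iff]
  set e := ‖e₀‖⁻¹ • e₀ with he
  have he1 : ‖e‖ = 1 := by
    rw [he, norm_smul, norm_inv, norm_norm, inv_mul_cancel₀ (norm_ne_zero_iff.2 hne)]
  have horth : ∀ w ∈ Rec G x₀, ⟪e, w⟫ = 0 := by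
    intro w hw
    rw [he, inner_smul_left, Submodule.inner_left_of_mem_orthogonal (Submodule.subset_span hw) he₀,
      mul_zero]
  obtain ⟨v, -, hv1, hvR⟩ := exists_dir ho hv h0 isClosed_univ (fun k => by
    by_contra hcon
    push Not at hcon
    apply hb
    refine (isBounded_closedBall (x := x₀) (r := k)).subset fun x hx => ?_
    rw [mem_closedBall_iff_norm]
    by_contra h1
    exact hcon x hx (not_le.1 h1) (mem_univ _))
  refine ⟨x₀, v, e, hv1, he1, horth v hvR, hvR, fun δ hδ => ?_⟩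
  by_contra hcon
  push Not at hcon
  obtain ⟨w, hw, -, hwR⟩ := exists_dir ho hv h0 (S := {w | δ ≤ |⟪e, w⟫|})
    (isClosed_le continuous_const (by fun_prop)) (fun k => by
      obtain ⟨x, hx, h1⟩ := hcon k
      have h2 := abs_real_inner_le_norm e (x - x₀)
      rw [he1, one_mul] at h2
      have h3 : 0 ≤ δ * ‖x - x₀‖ := by positivity
      have h4 : (k:ℝ) < ‖x - x₀‖ := by linarith
      have h5 : 0 < ‖x - x₀‖ := lt_of_le_of_lt (by positivity) h4
      refine ⟨x, hx, h4, ?_⟩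
      rw [mem_ofPred_eq, inner_smul_right, abs_mul, abs_inv, abs_norm, le_inv_mul_iff₀ h5]
      have : (0:ℝ) ≤ k := by positivity
      linarith)
  rw [mem_ofPred_eq, horth w hwR, abs_zero] at hw
  linarith

/-- mean value criterion -/
lemma twoSided_of_deriv {F : E n → ℝ} (hF : Differentiable ℝ F)
    (h : ∀ x ∈ G, ∀ y ∈ G, ∀ z ∈ segment ℝ x y, ∀ z' ∈ segment ℝ x y,
      |fderiv ℝ F z (x - y) - fderiv ℝ F z' (x - y)| ≤ ‖x - y‖ * ω ‖x - y‖) : TwoSided ω G F := by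
  intro x hx y hy l h0 h1
  rcases eq_or_lt_of_le h0 with rfl | h0'
  · simp
  rcases eq_or_lt_of_le h1 with rfl | h1'
  · simp
  set g : ℝ → ℝ := fun s => F (y + s • (x - y)) with hg
  have hd : ∀ s, HasDerivAt g (fderiv ℝ F (y + s • (x - y)) (x - y)) s := by
    intro s
    have a : HasDerivAt (fun s : ℝ => y + s • (x - y)) (x - y) s := by
      simpa using ((hasDerivAt_id s).smul_const (x - y)).const_add y
    exact (hF _).hasFDerivAt.comp_hasDerivAt s a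
  have hc : Continuous g := continuous_iff_continuousAt.2 fun s => (hd s).continuousAt
  obtain ⟨a, ha, ea⟩ := exists_hasDerivAt_eq_slope g _ h0' hc.continuousOn fun s _ => hd s
  obtain ⟨b, hb, eb⟩ := exists_hasDerivAt_eq_slope g _ h1' hc.continuousOn fun s _ => hd s
  have seg : ∀ s : ℝ, 0 ≤ s → s ≤ 1 → y + s • (x - y) ∈ segment ℝ x y := fun s s0 s1 =>
    ⟨s, 1 - s, s0, by linarith, by ring, by module⟩
  have := h x hx y hy _ (seg a ha.1.le (by linarith [ha.2])) _ (seg b (by linarith [hb.1]) hb.2.le)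
  rw [ea, eb] at this
  have e0 : g 0 = F y := by simp [hg]
  have e1 : g 1 = F x := by simp [hg]
  have el : g l = F (l • x + (1 - l) • y) := by simp only [hg]; congr 1; module
  rw [e0, e1, el] at this
  have hl : 0 < 1 - l := by linarith
  have e : F (l • x + (1 - l) • y) - l * F x - (1 - l) * F y = l * (1 - l) *
      ((F (l • x + (1 - l) • y) - F y) / (l - 0) - (F x - F (l • x + (1 - l) • y)) / (1 - l)) := by
    rw [sub_zero]; field_simp; ring
  rw [e, abs_mul, abs_of_pos (mul_pos h0' hl), mul_assoc (l * (1 - l))]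
  exact mul_le_mul_of_nonneg_left this (mul_pos h0' hl).le

lemma exists_bump (v : E n) (hv : ‖v‖ = 1) : ∃ (b : E n → ℝ) (L : ℝ), 0 < L ∧ ContDiff ℝ 2 b ∧
    (∀ z, 0 ≤ b z) ∧ b ((2:ℝ) • v) = 1 ∧ (∀ z, ‖z‖ < 1 → b z = 0) ∧
    (∀ z, 3 < ‖z‖ → b z = 0 ∧ fderiv ℝ b z = 0) ∧ (∀ z, b z ≤ L) ∧ (∀ z, ‖fderiv ℝ b z‖ ≤ L) ∧
    (∀ z z', |b z - b z'| ≤ L * ‖z - z'‖) ∧
    (∀ z z', ‖fderiv ℝ b z - fderiv ℝ b z'‖ ≤ L * ‖z - z'‖) := by
  let B : ContDiffBump ((2:ℝ) • v) := ⟨1/2, 1, by norm_num, by norm_num⟩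
  have hs : HasCompactSupport B := B.hasCompactSupport
  have hB : ContDiff ℝ 2 B := B.contDiff
  have hB' : ContDiff ℝ 1 (fderiv ℝ B) := hB.fderiv_right (by norm_num)
  obtain ⟨K1, h1⟩ := ContDiff.lipschitzWith_of_hasCompactSupport hs hB (by norm_num)
  obtain ⟨K2, h2⟩ := ContDiff.lipschitzWith_of_hasCompactSupport (hs.fderiv ℝ) hB' (by norm_num)
  have hv2 : ‖(2:ℝ) • v‖ = 2 := by rw [norm_smul, hv]; norm_num
  have hz : ∀ z, 1 ≤ ‖z - (2:ℝ) • v‖ → B z = 0 := fun z hz =>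
    B.zero_of_le_dist (by rw [dist_eq_norm]; exact hz)
  have k1 : (0:ℝ) ≤ K1 := K1.2
  have k2 : (0:ℝ) ≤ K2 := K2.2
  refine ⟨B, 1 + K1 + K2, by positivity, hB, fun z => B.nonneg, B.one_of_mem_closedBall
    (mem_closedBall_self (by norm_num)), fun z h => hz z ?_, fun z h => ?_,
    fun z => by linarith [B.le_one (x := z)], fun z => ?_, fun z z' => ?_, fun z z' => ?_⟩
  · have := norm_sub_norm_le ((2:ℝ) • v) z
    rw [norm_sub_rev]; linarith
  · have hz' : ∀ y, 3 < ‖y‖ → B y = 0 := fun y hy => hz y (by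
      have := norm_sub_norm_le y ((2:ℝ) • v); linarith)
    refine ⟨hz' z h, ?_⟩
    have : (B : E n → ℝ) =ᶠ[𝓝 z] fun _ => 0 := by
      filter_upwards [(isOpen_lt continuous_const continuous_norm).mem_nhds h] with y hy
      exact hz' y hy
    rw [this.fderiv_eq]; simp
  · linarith [norm_fderiv_le_of_lipschitz ℝ h1 (x₀ := z)]
  · have := h1.dist_le_mul z z'
    rw [Real.dist_eq, dist_eq_norm] at this
    nlinarith [norm_nonneg (z - z')]
  · have := h2.dist_le_mul z z'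
    rw [dist_eq_norm, dist_eq_norm] at this
    nlinarith [norm_nonneg (z - z')]

end Pool.Agent.Lib.MP_d2274e_an
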