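import Pool.Agent.Lib.MP_d2274e_an.Pos

set_option autoImplicit false

namespace Pool.Agent.Lib.MP_d2274e_an

open Set Filter Topology Metric
open scoped RealInnerProductSpace

variable {n : ℕ} {ω : ℝ → ℝ} {G : Set (E n)}

noncomputable def hump (x₀ e : E n) (b : E n → ℝ) (R : ℝ) (x : E n) : ℝ :=
  ⟪e, x - x₀⟫ * b (R⁻¹ • (x - x₀))

lemma hump_deriv (x₀ e : E n) {b : E n → ℝ} (hb : ContDiff ℝ 2 b) (R : ℝ) (x : E n) :
    DifferentiableAt ℝ (hump x₀ e b R) x ∧ ∀ u, fderiv ℝ (hump x₀ e b R) x u =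
      ⟪e, u⟫ * b (R⁻¹ • (x - x₀)) + ⟪e, R⁻¹ • (x - x₀)⟫ * fderiv ℝ b (R⁻¹ • (x - x₀)) u := by
  have h1 : HasFDerivAt (fun x : E n => ⟪e, x - x₀⟫) (innerSL ℝ e) x := by
    have := ((innerSL ℝ e).hasFDerivAt (x := x - x₀)).comp x ((hasFDerivAt_id x).sub_const x₀)
    simpa [Function.comp_def] using this
  have h2 : HasFDerivAt (fun x : E n => R⁻¹ • (x - x₀)) (R⁻¹ • ContinuousLinearMap.id ℝ (E n)) x :=
    ((hasFDerivAt_id x).sub_const x₀).const_smul R⁻¹
  have h3 := ((hb.differentiable (by norm_num)) (R⁻¹ • (x - x₀))).hasFDerivAt.comp x h2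
  have h4 : HasFDerivAt (hump x₀ e b R) _ x := h1.mul h3
  refine ⟨h4.differentiableAt, fun u => ?_⟩
  rw [h4.fderiv]
  simp [inner_smul_right]
  ring

lemma seg_le {x y z : E n} (hz : z ∈ segment ℝ x y) : ‖x - z‖ ≤ ‖x - y‖ ∧ ‖y - z‖ ≤ ‖x - y‖ := by
  have := dist_add_dist_of_mem_segment hz
  rw [dist_eq_norm, dist_eq_norm, dist_eq_norm, norm_sub_rev z y] at this
  constructor <;> linarith [norm_nonneg (x - z), norm_nonneg (y - z)]

lemma seg_le2 {x y z z' : E n} (hz : z ∈ segment ℝ x y) (hz' : z' ∈ segment ℝ x y) :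
    ‖z - z'‖ ≤ ‖x - y‖ := by
  have h : segment ℝ x y ⊆ closedBall z' ‖x - y‖ :=
    (convex_closedBall _ _).segment_subset (mem_closedBall_iff_norm.2 (seg_le hz').1)
      (mem_closedBall_iff_norm.2 (seg_le hz').2)
  exact mem_closedBall_iff_norm.1 (h hz)

section

variable {x₀ e : E n} {b : E n → ℝ} {L R δ : ℝ} (hv : Convex ℝ G) (he : ‖e‖ = 1) (hL : 0 < L)
  (hb : ContDiff ℝ 2 b) (b0 : ∀ z, 0 ≤ b z) (b3 : ∀ z, 3 < ‖z‖ → b z = 0 ∧ fderiv ℝ b z = 0)
  (bL : ∀ z, b z ≤ L) (bD : ∀ z, ‖fderiv ℝ b z‖ ≤ L) (bl : ∀ z z', |b z - b z'| ≤ L * ‖z - z'‖)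
  (bDl : ∀ z z', ‖fderiv ℝ b z - fderiv ℝ b z'‖ ≤ L * ‖z - z'‖) (hR : 0 < R) (hδ : 0 < δ)
  (hG : ∀ x ∈ G, |⟪e, x - x₀⟫| ≤ δ * (‖x - x₀‖ + R))
include hv he hL hb b0 b3 bL bD bl bDl hR hδ hG

lemma hump_aux {x y z z' : E n} (hx : x ∈ G) (hy : y ∈ G) (hz : z ∈ segment ℝ x y)
    (hz' : z' ∈ segment ℝ x y) (h3 : ‖R⁻¹ • (z - x₀)‖ ≤ 3) :
    |fderiv ℝ (hump x₀ e b R) z (x - y) - fderiv ℝ (hump x₀ e b R) z' (x - y)|
      ≤ 18 * L * ‖x - y‖ * min (‖x - y‖ / R) δ := by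
  rw [(hump_deriv x₀ e hb R z).2, (hump_deriv x₀ e hb R z').2]
  set ζ := R⁻¹ • (z - x₀) with hζ
  set ζ' := R⁻¹ • (z' - x₀) with hζ'
  set H := ‖x - y‖ with hH
  have H0 : 0 ≤ H := norm_nonneg _
  have ce : ∀ u, |⟪e, u⟫| ≤ ‖u‖ := fun u => by
    have := abs_real_inner_le_norm e u; rwa [he, one_mul] at this
  have d1 : ‖ζ - ζ'‖ ≤ H / R := by
    have : ζ - ζ' = R⁻¹ • (z - z') := by rw [hζ, hζ']; module
    rw [this, norm_smul, norm_inv, Real.norm_of_nonneg hR.le, div_eq_inv_mul]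
    have := seg_le2 hz hz'
    gcongr
  have A : ∀ w, |fderiv ℝ b w (x - y)| ≤ L * H := fun w =>
    ((fderiv ℝ b w).le_opNorm _).trans (mul_le_mul_of_nonneg_right (bD w) H0)
  have AA : |fderiv ℝ b ζ (x - y) - fderiv ℝ b ζ' (x - y)| ≤ L * (H / R) * H := by
    have := (fderiv ℝ b ζ - fderiv ℝ b ζ').le_opNorm (x - y)
    rw [sub_apply, Real.norm_eq_abs] at this
    refine this.trans (mul_le_mul_of_nonneg_right ((bDl _ _).trans ?_) H0)
    gcongr
  have B1 : |b ζ - b ζ'| ≤ L * (H / R) := (bl _ _).trans (by gcongr)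
  have B2 : |b ζ - b ζ'| ≤ L := by
    rw [abs_le]; constructor <;> linarith [b0 ζ, b0 ζ', bL ζ, bL ζ']
  have nz : ∀ w : E n, ‖R⁻¹ • (w - x₀)‖ ≤ 3 → ‖w - x₀‖ ≤ 3 * R := fun w hw => by
    rw [norm_smul, norm_inv, Real.norm_of_nonneg hR.le, inv_mul_le_iff₀ hR] at hw
    linarith
  have Q : ∀ w ∈ G, |⟪e, R⁻¹ • (w - x₀)⟫ * fderiv ℝ b (R⁻¹ • (w - x₀)) (x - y)|
      ≤ 4 * δ * (L * H) := by
    intro w hw
    rcases le_or_gt ‖R⁻¹ • (w - x₀)‖ 3 with h | h
    · rw [abs_mul]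
      refine mul_le_mul ?_ (A _) (abs_nonneg _) (by positivity)
      rw [inner_smul_right, abs_mul, abs_inv, abs_of_pos hR, inv_mul_le_iff₀ hR]
      have := hG w hw
      nlinarith [nz w h]
    · rw [(b3 _ h).2]; simp; positivity
  set p := ⟪e, x - y⟫ with hp
  set q := ⟪e, ζ⟫ with hq
  set q' := ⟪e, ζ'⟫ with hq'
  set a := fderiv ℝ b ζ (x - y) with ha
  set a' := fderiv ℝ b ζ' (x - y) with ha'
  have LH : 0 ≤ L * H := by positivity
  rcases le_total (H / R) δ with hm | hm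
  · rw [min_eq_left hm]
    have e1 : p * b ζ + q * a - (p * b ζ' + q' * a')
        = p * (b ζ - b ζ') + q * (a - a') + (q - q') * a' := by ring
    have t1 : |p * (b ζ - b ζ')| ≤ H * (L * (H / R)) := by
      rw [abs_mul]; exact mul_le_mul (ce _) B1 (abs_nonneg _) H0
    have t2 : |q * (a - a')| ≤ 3 * (L * (H / R) * H) := by
      rw [abs_mul]; exact mul_le_mul ((ce _).trans h3) AA (abs_nonneg _) (by norm_num)
    have t3 : |(q - q') * a'| ≤ H / R * (L * H) := by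
      rw [abs_mul, hq, hq', ← inner_sub_right]
      exact mul_le_mul ((ce _).trans d1) (A _) (abs_nonneg _) (by positivity)
    rw [e1]
    have : 0 ≤ L * H * (H / R) := by positivity
    linarith [abs_add_three (p * (b ζ - b ζ')) (q * (a - a')) ((q - q') * a')]
  · rw [min_eq_right hm]
    have e1 : p * b ζ + q * a - (p * b ζ' + q' * a')
        = p * (b ζ - b ζ') + q * a + - (q' * a') := by ring
    have t2 : |q * a| ≤ 4 * δ * (L * H) := Q z (hv.segment_subset hx hy hz)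
    have t3 : |q' * a'| ≤ 4 * δ * (L * H) := Q z' (hv.segment_subset hx hy hz')
    have hp1 : |p| ≤ δ * (8 * R + 2 * H) := by
      have e2 : p = ⟪e, x - x₀⟫ - ⟪e, y - x₀⟫ := by rw [← inner_sub_right, hp]; congr 1; abel
      have n1 := norm_sub_le_norm_sub_add_norm_sub x z x₀
      have n2 := norm_sub_le_norm_sub_add_norm_sub y z x₀
      have := seg_le hz
      have := nz z h3
      rw [e2]
      refine (abs_sub _ _).trans ?_
      nlinarith [hG x hx, hG y hy]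
    have t1 : |p * (b ζ - b ζ')| ≤ 10 * δ * (L * H) := by
      rw [abs_mul]
      rcases le_total H R with h | h
      · calc _ ≤ δ * (10 * R) * (L * (H / R)) :=
              mul_le_mul (hp1.trans (by gcongr; linarith)) B1 (abs_nonneg _) (by positivity)
          _ = _ := by field_simp
      · calc _ ≤ δ * (10 * H) * L :=
              mul_le_mul (hp1.trans (by gcongr; linarith)) B2 (abs_nonneg _) (by positivity)
          _ = _ := by ring
    rw [e1]
    have := abs_add_three (p * (b ζ - b ζ')) (q * a) (- (q' * a'))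
    rw [abs_neg] at this
    linarith

lemma hump_est {x y z z' : E n} (hx : x ∈ G) (hy : y ∈ G) (hz : z ∈ segment ℝ x y)
    (hz' : z' ∈ segment ℝ x y) :
    |fderiv ℝ (hump x₀ e b R) z (x - y) - fderiv ℝ (hump x₀ e b R) z' (x - y)|
      ≤ 18 * L * ‖x - y‖ * min (‖x - y‖ / R) δ := by
  rcases le_or_gt ‖R⁻¹ • (z - x₀)‖ 3 with h | h
  · exact hump_aux hv he hL hb b0 b3 bL bD bl bDl hR hδ hG hx hy hz hz' h
  rcases le_or_gt ‖R⁻¹ • (z' - x₀)‖ 3 with h' | h'
  · rw [abs_sub_comm]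
    exact hump_aux hv he hL hb b0 b3 bL bD bl bDl hR hδ hG hx hy hz' hz h'
  rw [(hump_deriv x₀ e hb R z).2, (hump_deriv x₀ e hb R z').2, (b3 _ h).1, (b3 _ h).2,
    (b3 _ h').1, (b3 _ h').2]
  simp only [mul_zero, zero_apply, add_zero, sub_zero, abs_zero]
  have : 0 ≤ min (‖x - y‖ / R) δ := le_min (by positivity) hδ.le
  positivity

end

lemma twoSided_sum {F : ℕ → E n → ℝ} {a : ℕ → ℝ} {w : ℕ → ℝ → ℝ} (ha : ∀ i, 0 ≤ a i)
    (h : ∀ i, TwoSided (w i) G (F i)) (N : ℕ) :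
    TwoSided (fun t => ∑ i ∈ Finset.range N, a i * w i t) G
      (fun x => ∑ i ∈ Finset.range N, a i * F i x) := by
  intro x hx y hy l h0 h1
  simp only [Finset.mul_sum, ← Finset.sum_sub_distrib]
  refine (Finset.abs_sum_le_sum_abs _ _).trans (Finset.sum_le_sum fun i _ => ?_)
  have e : a i * F i (l • x + (1 - l) • y) - l * (a i * F i x) - (1 - l) * (a i * F i y)
      = a i * (F i (l • x + (1 - l) • y) - l * F i x - (1 - l) * F i y) := by ring
  rw [e, abs_mul, abs_of_nonneg (ha i)]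
  have := mul_le_mul_of_nonneg_left (h i x hx y hy l h0 h1) (ha i)
  linarith

theorem positive (hG : Domain G) (hm : Modulus ω) (hω : ConcaveOn ℝ (Ici 0) ω)
    (hL : ∀ M : ℝ, ∃ l : ℝ, 1 ≤ l ∧ ∃ᶠ R in atTop, M * ω (l * R) < l * ω R) :
    HasExample ω G := by
  obtain ⟨x₀, v, e, hv1, he1, hev, hray, hsub⟩ := geometry hG
  obtain ⟨b, L, hL0, hb, b0, b2, b1, b3, bL, bD, bl, bDl⟩ := exists_bump v hv1
  obtain ⟨-, ho, hv, -⟩ := hG
  have ch : ∀ j : ℕ, ∃ l r : ℝ, 1 ≤ l ∧ (j:ℝ) + 1 ≤ r ∧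
      (2 ^ (j + 1) * (18 * L) * (2 * j)) * ω (l * r) < l * ω r ∧
      ∀ x ∈ G, |⟪e, x - x₀⟫| ≤ l⁻¹ * (‖x - x₀‖ + l * r) := by
    intro j
    obtain ⟨l, hl, hf⟩ := hL (2 ^ (j + 1) * (18 * L) * (2 * j))
    have hl0 : 0 < l := by linarith
    obtain ⟨R₀, hR₀⟩ := hsub l⁻¹ (by positivity)
    obtain ⟨r, h1, h2, h3⟩ := (hf.and_eventually ((eventually_ge_atTop ((j:ℝ) + 1)).and
      (eventually_ge_atTop R₀))).exists
    refine ⟨l, r, hl, h2, h1, fun x hx => ?_⟩
    rw [mul_add, inv_mul_cancel_left₀ hl0.ne']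
    linarith [hR₀ x hx]
  choose l r hl hr hM hthin using ch
  have hl0 : ∀ j, 0 < l j := fun j => by linarith [hl j]
  have hr0 : ∀ j, 0 < r j := fun j => lt_of_lt_of_le (by positivity) (hr j)
  set R : ℕ → ℝ := fun j => l j * r j with hR
  have hR0 : ∀ j, 0 < R j := fun j => mul_pos (hl0 j) (hr0 j)
  have hRj : ∀ j : ℕ, (j:ℝ) + 1 ≤ R j := fun j => by
    simp only [hR]; nlinarith [hl j, hr j, hr0 j]
  set a : ℕ → ℝ := fun j => l j * ω (r j) / (2 ^ (j + 1) * (18 * L)) with ha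
  have ha0 : ∀ j, 0 ≤ a j := fun j => by
    have := hm.nonneg (hr0 j).le; have := hl0 j; simp only [ha]; positivity
  set F : ℕ → E n → ℝ := fun j => hump x₀ e b (R j) with hF
  have hT : ∀ j, TwoSided (fun t => 18 * L * min (t / R j) (l j)⁻¹) G (F j) := fun j =>
    twoSided_of_deriv (fun x => (hump_deriv x₀ e hb (R j) x).1) fun x hx y hy z hz z' hz' => by
      have := hump_est hv he1 hL0 hb b0 b3 bL bD bl bDl (hR0 j) (inv_pos.2 (hl0 j)) (hthin j)
        hx hy hz hz'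
      linarith
  have hw : ∀ j t, 0 ≤ t → a j * (18 * L * min (t / R j) (l j)⁻¹) ≤ ω t / 2 ^ (j + 1) := by
    intro j t ht
    have e1 : a j * (18 * L * min (t / R j) (l j)⁻¹)
        = (l j * min (t / R j) (l j)⁻¹ * ω (r j)) / 2 ^ (j + 1) := by
      simp only [ha]; field_simp
    rw [e1, mul_min_of_nonneg _ _ (hl0 j).le, mul_inv_cancel₀ (hl0 j).ne']
    have e2 : l j * (t / R j) = t / r j := by
      have := (hl0 j).ne'; simp only [hR]; field_simp
    rw [e2]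
    gcongr
    rcases le_total (t / r j) 1 with h | h
    · rw [min_eq_left h]
      have := scale_le hm hω (hr0 j).le (div_nonneg ht (hr0 j).le) h
      rwa [div_mul_cancel₀ _ (hr0 j).ne'] at this
    · rw [min_eq_right h, one_mul]
      exact hm.mono (hr0 j).le ((one_le_div (hr0 j)).1 h)
  set S : ℕ → E n → ℝ := fun N x => ∑ i ∈ Finset.range N, a i * F i x with hS
  set f : E n → ℝ := fun x => ∑' i, a i * F i x with hf
  have hfS : ∀ (N : ℕ) x, ‖x - x₀‖ < N → f x = S N x := by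
    intro N x hx
    apply tsum_eq_sum
    intro i hi
    have hi' : (N:ℝ) ≤ i := by exact_mod_cast not_lt.1 (fun h => hi (Finset.mem_range.2 h))
    have : b ((R i)⁻¹ • (x - x₀)) = 0 := b1 _ (by
      rw [norm_smul, norm_inv, Real.norm_of_nonneg (hR0 i).le, inv_mul_lt_iff₀ (hR0 i)]
      linarith [hRj i])
    simp [hF, hump, this]
  have hev' : ∀ (N : ℕ) x, ‖x - x₀‖ < N → f =ᶠ[𝓝 x] S N := by
    intro N x hx
    have : IsOpen {y : E n | ‖y - x₀‖ < N} := isOpen_lt (by fun_prop) continuous_const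
    filter_upwards [this.mem_nhds hx] with y hy using hfS N y hy
  have hSd : ∀ N x, HasFDerivAt (S N) (∑ i ∈ Finset.range N, a i • fderiv ℝ (F i) x) x :=
    fun N x => HasFDerivAt.fun_sum fun i _ =>
      ((hump_deriv x₀ e hb (R i) x).1.hasFDerivAt).const_mul (a i)
  have hcont : ContinuousOn f G := by
    intro x _
    obtain ⟨N, hN⟩ := exists_nat_gt ‖x - x₀‖
    exact (((hSd N x).congr_of_eventuallyEq (hev' N x hN)).continuousAt).continuousWithinAt
  have hTS : TwoSided ω G f := by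
    intro x hx y hy t h0 h1
    obtain ⟨N, hN⟩ := exists_nat_gt (max ‖x - x₀‖ ‖y - x₀‖)
    have n1 : ‖x - x₀‖ < N := (le_max_left _ _).trans_lt hN
    have n2 : ‖y - x₀‖ < N := (le_max_right _ _).trans_lt hN
    have n3 : ‖t • x + (1 - t) • y - x₀‖ < N :=
      mem_ball_iff_norm.1 (convex_ball x₀ (N:ℝ) (mem_ball_iff_norm.2 n1) (mem_ball_iff_norm.2 n2)
        h0 (by linarith) (by ring))
    rw [hfS N _ n1, hfS N _ n2, hfS N _ n3]
    refine (twoSided_sum ha0 hT N x hx y hy t h0 h1).trans ?_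
    apply mul_le_mul_of_nonneg_left _ (mul_nonneg (mul_nonneg h0 (by linarith)) (norm_nonneg _))
    refine (Finset.sum_le_sum fun i _ => hw i _ (norm_nonneg _)).trans ?_
    have w0 := hm.nonneg (norm_nonneg (x - y))
    have : ∀ N : ℕ, ∑ i ∈ Finset.range N, ω ‖x - y‖ / 2 ^ (i + 1) = ω ‖x - y‖ - ω ‖x - y‖ / 2 ^ N := by
      intro N
      induction N with
      | zero => simp
      | succ N ih => rw [Finset.sum_range_succ, ih]; field_simp; ring
    rw [this]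
    have : 0 ≤ ω ‖x - y‖ / 2 ^ N := by positivity
    linarith
  obtain ⟨h1, h2⟩ := of_twoSided hcont hTS
  refine ⟨f, h1, h2, ?_⟩
  rintro ⟨-, K, hK, hKb⟩
  have hD : ∀ (t : ℝ) (N : ℕ), |t| < N →
      fderiv ℝ f (x₀ + t • v) e = ∑ i ∈ Finset.range N, a i * b (((R i)⁻¹ * t) • v) := by
    intro t N ht
    have n1 : ‖x₀ + t • v - x₀‖ < N := by
      rw [add_sub_cancel_left, norm_smul, hv1, mul_one]; exact ht
    rw [((hSd N _).congr_of_eventuallyEq (hev' N _ n1)).fderiv, sum_apply]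
    refine Finset.sum_congr rfl fun i _ => ?_
    rw [smul_apply, (hump_deriv x₀ e hb (R i) _).2, add_sub_cancel_left,
      smul_smul, inner_smul_right, hev, real_inner_self_eq_norm_sq, he1]
    simp
  obtain ⟨j, hj⟩ := exists_nat_ge K
  obtain ⟨N, hN⟩ := exists_nat_gt (2 * R j)
  have hjN : j < N := by
    have : (j:ℝ) < N := by linarith [hRj j, hR0 j]
    exact_mod_cast this
  have d1 := hD (2 * R j) N (by rwa [abs_of_pos (by linarith [hR0 j])])
  have d0 := hD 0 1 (by simp)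
  have z0 : b 0 = 0 := b1 0 (by simp)
  simp only [mul_zero, zero_smul, z0, Finset.sum_const_zero] at d0
  have d2 : a j ≤ fderiv ℝ f (x₀ + (2 * R j) • v) e := by
    rw [d1]
    refine le_trans ?_ (Finset.single_le_sum (f := fun i => a i * b (((R i)⁻¹ * (2 * R j)) • v))
      (fun i _ => mul_nonneg (ha0 i) (b0 _)) (Finset.mem_range.2 hjN))
    have : (R j)⁻¹ * (2 * R j) = 2 := by have := (hR0 j).ne'; field_simp
    simp only [this, b2, mul_one, le_refl]
  have d3 := hKb _ (hray (2 * R j) (by linarith [hR0 j])) _ (hray 0 le_rfl)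
  have d4 := (fderiv ℝ f (x₀ + (2 * R j) • v) - fderiv ℝ f (x₀ + (0:ℝ) • v)).le_opNorm e
  rw [he1, mul_one, sub_apply, zero_smul, d0, sub_zero] at d4
  rw [zero_smul, add_zero, add_sub_cancel_left, norm_smul, hv1, mul_one,
    Real.norm_of_nonneg (by linarith [hR0 j])] at d3
  rw [add_zero] at d4
  have d5 := le_scale hm hω (hR0 j).le (show (1:ℝ) ≤ 2 by norm_num)
  have w0 := hm.nonneg (hR0 j).le
  have d6 : 2 * j * ω (R j) < a j := by
    simp only [ha]
    rw [lt_div_iff₀ (by positivity)]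
    have := hM j
    simp only [hR]
    linarith
  have d7 := (d2.trans (le_abs_self _)).trans (d4.trans d3)
  nlinarith [mul_le_mul_of_nonneg_left d5 hK.le, mul_le_mul_of_nonneg_right hj w0]

end Pool.Agent.Lib.MP_d2274e_an
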