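import Pool.Agent.Lib.MP_d2274e_an.Defs

set_option autoImplicit false

namespace Pool.Agent.Lib.MP_d2274e_an

open Set Filter Topology Metric

abbrev E (n : ℕ) := EuclideanSpace ℝ (Fin n)

variable {n : ℕ} {ω : ℝ → ℝ} {G : Set (E n)} {f : E n → ℝ}

lemma Modulus.nonneg (h : Modulus ω) {t : ℝ} (ht : 0 ≤ t) : 0 ≤ ω t := h.1 t ht

lemma Modulus.mono (h : Modulus ω) {s t : ℝ} (hs : 0 ≤ s) (hst : s ≤ t) : ω s ≤ ω t :=
  h.2.1 hs (hs.trans hst) hst

lemma Modulus.zero (h : Modulus ω) : ω 0 = 0 := by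
  apply le_antisymm _ (h.nonneg le_rfl)
  apply ge_of_tendsto h.2.2
  filter_upwards [self_mem_nhdsWithin] with t ht
  exact h.mono le_rfl (le_of_lt ht)

lemma Modulus.tendsto (h : Modulus ω) : Tendsto ω (𝓝[≥] 0) (𝓝 0) := by
  rw [← Ioi_union_left, nhdsWithin_union, tendsto_sup]
  refine ⟨h.2.2, ?_⟩
  rw [nhdsWithin_singleton]
  have := tendsto_pure_nhds ω 0
  rwa [h.zero] at this

/-- concavity gives sublinearity -/
lemma scale_le (h : Modulus ω) (hc : ConcaveOn ℝ (Ici 0) ω) {t c : ℝ} (ht : 0 ≤ t) (h0 : 0 ≤ c)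
    (h1 : c ≤ 1) : c * ω t ≤ ω (c * t) := by
  have := hc.2 (mem_Ici.2 ht) (mem_Ici.2 (le_refl (0:ℝ))) h0 (sub_nonneg.2 h1) (by ring)
  simp only [smul_eq_mul, mul_zero, add_zero, h.zero] at this
  exact this

lemma le_scale (h : Modulus ω) (hc : ConcaveOn ℝ (Ici 0) ω) {t c : ℝ} (ht : 0 ≤ t)
    (h1 : 1 ≤ c) : ω (c * t) ≤ c * ω t := by
  have hc0 : 0 < c := by linarith
  have := scale_le h hc (t := c * t) (c := c⁻¹) (by positivity) (by positivity)
    (inv_le_one_of_one_le₀ h1)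
  rw [← mul_assoc, inv_mul_cancel₀ hc0.ne', one_mul] at this
  calc ω (c * t) = c * (c⁻¹ * ω (c * t)) := by field_simp
    _ ≤ c * ω t := by gcongr

/-- two-sided form -/
def TwoSided (ω : ℝ → ℝ) (G : Set (E n)) (f : E n → ℝ) : Prop :=
  ∀ x ∈ G, ∀ y ∈ G, ∀ l : ℝ, 0 ≤ l → l ≤ 1 →
    |f (l • x + (1 - l) • y) - l * f x - (1 - l) * f y| ≤ l * (1 - l) * ‖x - y‖ * ω ‖x - y‖

lemma twoSided_of (h1 : Semiconvex ω G f) (h2 : Semiconvex ω G (-f)) : TwoSided ω G f := by
  intro x hx y hy l h0 hl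
  have a := h1.2 x hx y hy l h0 hl
  have b := h2.2 x hx y hy l h0 hl
  simp only [Pi.neg_apply] at b
  rw [abs_le]; constructor <;> linarith

lemma of_twoSided (hc : ContinuousOn f G) (h : TwoSided ω G f) :
    Semiconvex ω G f ∧ Semiconvex ω G (-f) := by
  refine ⟨⟨hc, fun x hx y hy l h0 hl => ?_⟩, ⟨hc.neg, fun x hx y hy l h0 hl => ?_⟩⟩
  · have := abs_le.1 (h x hx y hy l h0 hl); linarith [this.2]
  · have := abs_le.1 (h x hx y hy l h0 hl); simp only [Pi.neg_apply]; linarith [this.1]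

lemma TwoSided.quot (hm : Modulus ω) (h : TwoSided ω G f) {x u : E n} (hx : x ∈ G)
    (hu : x + u ∈ G) {l : ℝ} (h0 : 0 < l) (hl : l ≤ 1) :
    |(f (x + l • u) - f x) / l - (f (x + u) - f x)| ≤ ‖u‖ * ω ‖u‖ := by
  have := h (x + u) hu x hx l h0.le hl
  have e1 : l • (x + u) + (1 - l) • x = x + l • u := by module
  rw [e1, add_sub_cancel_left] at this
  have e2 : (f (x + l • u) - f x) / l - (f (x + u) - f x)
      = (f (x + l • u) - l * f (x + u) - (1 - l) * f x) / l := by field_simp; ring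
  rw [e2, abs_div, abs_of_pos h0, div_le_iff₀ h0]
  have : 0 ≤ ‖u‖ * ω ‖u‖ := mul_nonneg (norm_nonneg _) (hm.nonneg (norm_nonneg _))
  nlinarith [mul_nonneg h0.le (mul_nonneg h0.le this)]

lemma ev_mem (ho : IsOpen G) {x : E n} (hx : x ∈ G) (u : E n) :
    ∀ᶠ l in 𝓝[>] (0:ℝ), x + l • u ∈ G := by
  have : Tendsto (fun l : ℝ => x + l • u) (𝓝 0) (𝓝 x) := by
    have : Continuous (fun l : ℝ => x + l • u) := by fun_prop
    simpa using this.tendsto 0
  exact (this.eventually (ho.mem_nhds hx)).filter_mono nhdsWithin_le_nhds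

lemma small (hm : Modulus ω) (c : ℝ) (hc : 0 ≤ c) :
    Tendsto (fun l : ℝ => c * ω (l * c)) (𝓝[>] 0) (𝓝 0) := by
  have h1 : Tendsto (fun l : ℝ => l * c) (𝓝[>] 0) (𝓝[≥] 0) := by
    apply tendsto_nhdsWithin_iff.2 ⟨?_, ?_⟩
    · have : Continuous (fun l : ℝ => l * c) := by fun_prop
      have := this.tendsto 0
      simp only [zero_mul] at this
      exact this.mono_left nhdsWithin_le_nhds
    · filter_upwards [self_mem_nhdsWithin] with l hl
      exact mul_nonneg (le_of_lt hl) hc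
  simpa using (hm.tendsto.comp h1).const_mul c

lemma TwoSided.exists_lim (hm : Modulus ω) (ho : IsOpen G) (h : TwoSided ω G f) {x : E n}
    (hx : x ∈ G) (u : E n) :
    ∃ L, Tendsto (fun l : ℝ => (f (x + l • u) - f x) / l) (𝓝[>] 0) (𝓝 L) := by
  apply cauchy_map_iff_exists_tendsto.1
  rw [Metric.cauchy_iff]
  refine ⟨inferInstance, fun ε hε => ?_⟩
  have h1 := (small hm ‖u‖ (norm_nonneg u)).eventually (gt_mem_nhds (show (0:ℝ) < ε / 2 by linarith))
  obtain ⟨l₀, ⟨a1, a2⟩, a3⟩ := ((h1.and (ev_mem ho hx u)).and self_mem_nhdsWithin).exists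
  have a3' : 0 < l₀ := a3
  refine ⟨{y | |y - (f (x + l₀ • u) - f x) / l₀| < ε / 2}, ?_, ?_⟩
  · rw [mem_map]
    filter_upwards [Ioc_mem_nhdsGT a3'] with l hl
    have q := h.quot hm hx a2 (l := l / l₀) (div_pos hl.1 a3') ((div_le_one a3').2 hl.2)
    rw [smul_smul, div_mul_cancel₀ _ a3'.ne', norm_smul, Real.norm_of_nonneg a3'.le] at q
    rw [mem_preimage, mem_ofPred_eq]
    have e : (f (x + l • u) - f x) / l - (f (x + l₀ • u) - f x) / l₀
        = ((f (x + l • u) - f x) / (l / l₀) - (f (x + l₀ • u) - f x)) / l₀ := by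
      have := hl.1.ne'
      field_simp
    rw [e, abs_div, abs_of_pos a3', div_lt_iff₀ a3']
    nlinarith
  · intro a ha b hb
    rw [Real.dist_eq]
    rw [mem_ofPred_eq, abs_lt] at ha hb
    rw [abs_lt]
    constructor <;> linarith [ha.1, ha.2, hb.1, hb.2]

/-- existence of the derivative with the Taylor bound -/
lemma TwoSided.taylor (hm : Modulus ω) (ho : IsOpen G) (h : TwoSided ω G f) {x : E n}
    (hx : x ∈ G) : ∃ L : E n →L[ℝ] ℝ, ∀ u, x + u ∈ G → |f (x + u) - f x - L u| ≤ ‖u‖ * ω ‖u‖ := by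
  choose D hD using h.exists_lim hm ho hx
  have hpos : ∀ (c : ℝ), 0 < c → ∀ u, D (c • u) = c * D u := by
    intro c hc u
    have h1 : Tendsto (fun l : ℝ => l * c) (𝓝[>] 0) (𝓝[>] 0) := by
      apply tendsto_nhdsWithin_iff.2 ⟨?_, ?_⟩
      · have : Continuous (fun l : ℝ => l * c) := by fun_prop
        have := this.tendsto 0
        simp only [zero_mul] at this
        exact this.mono_left nhdsWithin_le_nhds
      · filter_upwards [self_mem_nhdsWithin] with l hl
        exact mul_pos hl hc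
    have h2 := ((hD u).comp h1).const_mul c
    refine tendsto_nhds_unique (hD (c • u)) (h2.congr' ?_)
    filter_upwards [self_mem_nhdsWithin] with l hl
    have : l ≠ 0 := ne_of_gt hl
    simp only [Function.comp, smul_smul]
    field_simp
  have hmid : ∀ u w, D ((1/2 : ℝ) • (u + w)) = (D u + D w) / 2 := by
    intro u w
    have h1 := (hD ((1/2 : ℝ) • (u + w))).sub (((hD u).add (hD w)).div_const 2)
    have h2 : Tendsto (fun l : ℝ => (f (x + l • ((1/2 : ℝ) • (u + w))) - f x) / l -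
        ((f (x + l • u) - f x) / l + (f (x + l • w) - f x) / l) / 2) (𝓝[>] 0) (𝓝 0) := by
      apply squeeze_zero_norm' _ (small hm ‖u - w‖ (norm_nonneg _))
      filter_upwards [ev_mem ho hx u, ev_mem ho hx w, self_mem_nhdsWithin] with l a1 a2 hl
      have hl' : 0 < l := hl
      have q := h _ a1 _ a2 (1/2) (by norm_num) (by norm_num)
      have e1 : (1/2 : ℝ) • (x + l • u) + (1 - 1/2 : ℝ) • (x + l • w)
          = x + l • ((1/2 : ℝ) • (u + w)) := by module
      have e2 : x + l • u - (x + l • w) = l • (u - w) := by module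
      rw [e1, e2, norm_smul, Real.norm_of_nonneg hl'.le] at q
      have e : (f (x + l • ((1/2 : ℝ) • (u + w))) - f x) / l -
        ((f (x + l • u) - f x) / l + (f (x + l • w) - f x) / l) / 2
        = (f (x + l • ((1/2 : ℝ) • (u + w))) - 1/2 * f (x + l • u) - (1 - 1/2) * f (x + l • w)) / l := by
        field_simp; ring
      rw [e, Real.norm_eq_abs, abs_div, abs_of_pos hl', div_le_iff₀ hl']
      have : 0 ≤ ‖u - w‖ * ω (l * ‖u - w‖) * l :=
        mul_nonneg (mul_nonneg (norm_nonneg _) (hm.nonneg (by positivity))) hl'.le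
      nlinarith
    have := tendsto_nhds_unique h1 h2
    linarith
  have h0 : D 0 = 0 := by
    have := hpos 2 (by norm_num) 0
    rw [smul_zero] at this; linarith
  have hadd : ∀ u w, D (u + w) = D u + D w := by
    intro u w
    have a := hmid u w
    rw [hpos _ (by norm_num)] at a; linarith
  have hneg : ∀ u, D (-u) = - D u := by
    intro u
    have := hadd u (-u)
    rw [add_neg_cancel, h0] at this; linarith
  have hsm : ∀ (c : ℝ) u, D (c • u) = c * D u := by
    intro c u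
    rcases lt_trichotomy c 0 with hc | hc | hc
    · have : c • u = (-c) • (-u) := by module
      rw [this, hpos _ (by linarith), hneg]; ring
    · simp [hc, h0]
    · exact hpos c hc u
  let L : E n →ₗ[ℝ] ℝ := { toFun := D, map_add' := hadd, map_smul' := fun c u => by simpa using hsm c u }
  refine ⟨LinearMap.toContinuousLinearMap L, fun u hu => ?_⟩
  have h1 := ((hD u).sub_const (f (x + u) - f x)).abs
  have h2 : |D u - (f (x + u) - f x)| ≤ ‖u‖ * ω ‖u‖ := by
    apply le_of_tendsto h1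
    filter_upwards [Ioc_mem_nhdsGT (show (0:ℝ) < 1 by norm_num)] with l hl
    exact h.quot hm hx hu hl.1 hl.2
  rw [abs_sub_comm] at h2
  simpa [L] using h2

lemma hasFDerivAt_of_taylor (hm : Modulus ω) (ho : IsOpen G) {x : E n} (hx : x ∈ G)
    {L : E n →L[ℝ] ℝ} (hL : ∀ u, x + u ∈ G → |f (x + u) - f x - L u| ≤ ‖u‖ * ω ‖u‖) :
    HasFDerivAt f L x := by
  rw [hasFDerivAt_iff_isLittleO_nhds_zero, Asymptotics.isLittleO_iff]
  intro c hc
  have h1 : Tendsto (fun u : E n => ‖u‖) (𝓝 0) (𝓝[≥] 0) := by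
    apply tendsto_nhdsWithin_iff.2 ⟨?_, Eventually.of_forall fun u => norm_nonneg u⟩
    simpa using (continuous_norm (E := E n)).tendsto 0
  have h2 := (hm.tendsto.comp h1).eventually (gt_mem_nhds hc)
  have h3 : ∀ᶠ u in 𝓝 (0 : E n), x + u ∈ G := by
    have : Continuous (fun u : E n => x + u) := by fun_prop
    have := this.tendsto 0
    rw [add_zero] at this
    exact this.eventually (ho.mem_nhds hx)
  filter_upwards [h2, h3] with u a b
  rw [Real.norm_eq_abs]
  refine (hL u b).trans ?_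
  rw [mul_comm]
  exact mul_le_mul_of_nonneg_right (le_of_lt a) (norm_nonneg _)

lemma TwoSided.taylor' (hm : Modulus ω) (ho : IsOpen G) (h : TwoSided ω G f) {x : E n}
    (hx : x ∈ G) : DifferentiableAt ℝ f x ∧
      ∀ y ∈ G, |f y - f x - fderiv ℝ f x (y - x)| ≤ ‖y - x‖ * ω ‖y - x‖ := by
  obtain ⟨L, hL⟩ := h.taylor hm ho hx
  have hd := hasFDerivAt_of_taylor hm ho hx hL
  refine ⟨hd.differentiableAt, fun y hy => ?_⟩
  rw [hd.fderiv]
  have := hL (y - x) (by simpa using hy)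
  simpa using this

end Pool.Agent.Lib.MP_d2274e_an
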